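import Mathlib

/-!
# MP_04b39a_gt, Q2: an arc in a horizontal plane with an `ℓ₃`-isometric copy that meets every plane
of `ℝ³` in at most four points

For `p = 3` there is an arc `M` in the horizontal plane `x₃ = 0` of `ℝ³` and an `ℓ₃`-isometric copy
`M'` of `M` such that every plane meets `M'` in a finite set (at most four points).  Hence the
answer to Q2 of MP_04b39a_gt is negative.

The mechanism: put `l₁ = 2/(t+1)`, `l₂ = -1/t`, `l₃ = 2/(t-1)`, `l₄ = t` and `L = l₁+l₂+l₃+l₄`.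
The differences `dᵢ` of the `lᵢ` between any two parameters satisfy
`d₁d₂d₃ + d₁d₂d₄ + d₁d₃d₄ + d₂d₃d₄ = 0`, and for four numbers `dᵢ` with sum `D` one has
`∑ (D - 2 dᵢ)³ - 2 D³ = -24 (d₁d₂d₃ + d₁d₂d₄ + d₁d₃d₄ + d₂d₃d₄)`.  So the differences of the five
functions `yᵢ = L - 2 lᵢ` and `2^{1/3} L` satisfy `y₁³ + y₂³ + y₃³ + y₄³ = (2^{1/3} L)³`, and for
parameters in `[3/2, 2]` the signs are such that this reads
`|y₁|³ + |y₂|³ + |y₄|³ = |y₃|³ + |2^{1/3} L|³`.
-/

set_option autoImplicit false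

namespace Pool.Agent.Results.MP_04b39a_gt.CurveFiniteInPlanes

open Module

/-- The `ℓ_p`-distance `(|x₁ - y₁|^p + |x₂ - y₂|^p + |x₃ - y₃|^p)^{1/p}` on `ℝ³`. -/
noncomputable def lpDist (p : ℝ) (x y : Fin 3 → ℝ) : ℝ :=
  (∑ i, |x i - y i| ^ p) ^ (1 / p)

/-- `M'` is an `ℓ_p`-isometric copy of `M`: there is a bijection from `M` onto `M'` which preserves
the `ℓ_p`-distances between points of `M`. -/
def IsLpCopy (p : ℝ) (M M' : Set (Fin 3 → ℝ)) : Prop :=
  ∃ φ : (Fin 3 → ℝ) → (Fin 3 → ℝ), Set.BijOn φ M M' ∧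
    ∀ x ∈ M, ∀ y ∈ M, lpDist p (φ x) (φ y) = lpDist p x y

/-- `M` lies in a horizontal plane `{x : x₃ = c}`. -/
def InHorizontalPlane (M : Set (Fin 3 → ℝ)) : Prop :=
  ∃ c : ℝ, ∀ x ∈ M, x 2 = c

/-- the sum `L` of the four functions `2/(t+1)`, `-1/t`, `2/(t-1)`, `t` -/
noncomputable def L (t : ℝ) : ℝ := 2 / (t + 1) - 1 / t + 2 / (t - 1) + t

/-- the planar curve; `k` plays the role of `2^{1/3}` -/
noncomputable def f (k t : ℝ) : Fin 3 → ℝ := ![L t - 4 / (t - 1), k * L t, 0]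

/-- the curve in space -/
noncomputable def g (t : ℝ) : Fin 3 → ℝ := ![L t - 4 / (t + 1), L t + 2 / t, L t - 2 * t]

/-- sum of the cubes of the absolute values of the differences -/
def S (x y : Fin 3 → ℝ) : ℝ := |x 0 - y 0| ^ 3 + |x 1 - y 1| ^ 3 + |x 2 - y 2| ^ 3

theorem lpDist_three (x y : Fin 3 → ℝ) : lpDist 3 x y = (S x y) ^ (1 / 3 : ℝ) := by
  unfold lpDist S
  have h : ∀ t : ℝ, t ^ (3 : ℝ) = t ^ 3 := fun t => by exact_mod_cast Real.rpow_natCast t 3
  rw [Fin.sum_univ_three, h, h, h]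

theorem S_comm (x y : Fin 3 → ℝ) : S x y = S y x := by
  unfold S
  rw [abs_sub_comm (x 0), abs_sub_comm (x 1), abs_sub_comm (x 2)]

/-- the key computation: the two curves have the same `ℓ₃`-distances -/
theorem S_eq_of_le (k : ℝ) (hk : k ^ 3 = 2) (hk0 : 0 < k) (s t : ℝ) (ht : 3 / 2 ≤ t) (hts : t ≤ s)
    (hs : s ≤ 2) : S (g s) (g t) = S (f k s) (f k t) := by
  have hs1 : 0 < s - 1 := by linarith
  have ht1 : 0 < t - 1 := by linarith
  have hs0 : 0 < s := by linarith
  have ht0 : 0 < t := by linarith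
  have hs2 : 0 < s + 1 := by linarith
  have ht2 : 0 < t + 1 := by linarith
  obtain ⟨h, hh⟩ : ∃ h, h = s - t := ⟨_, rfl⟩
  have hh0 : 0 ≤ h := by linarith
  obtain ⟨a, ha⟩ : ∃ a, a = 2 / ((s + 1) * (t + 1)) := ⟨_, rfl⟩
  obtain ⟨b, hb⟩ : ∃ b, b = 1 / (s * t) := ⟨_, rfl⟩
  obtain ⟨c, hc⟩ : ∃ c, c = 2 / ((s - 1) * (t - 1)) := ⟨_, rfl⟩
  have ha' : a * ((s + 1) * (t + 1)) = 2 := by rw [ha]; field_simp
  have hb' : b * (s * t) = 1 := by rw [hb]; field_simp
  have hc' : c * ((s - 1) * (t - 1)) = 2 := by rw [hc]; field_simp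
  have ha0 : 0 < a := by rw [ha]; positivity
  have hb0 : 0 < b := by rw [hb]; positivity
  have hc0 : 0 < c := by rw [hc]; positivity
  have ha1 : a ≤ 8 / 25 := by
    rw [ha, div_le_div_iff₀ (by positivity) (by norm_num)]
    nlinarith
  have hb1 : b ≤ 4 / 9 := by
    rw [hb, div_le_div_iff₀ (by positivity) (by norm_num)]
    nlinarith
  have hc1 : 2 ≤ c := by
    rw [hc, le_div_iff₀ (by positivity)]
    nlinarith
  have e3 : a * b * c - a * b + a * c - b * c = 0 := by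
    rw [ha, hb, hc]
    field_simp
    ring
  have hL : L s - L t = h * (1 - a + b - c) := by
    unfold L
    rw [ha, hb, hc, hh]
    field_simp
    ring
  have d1 : 4 / (s + 1) - 4 / (t + 1) = h * (-2 * a) := by
    rw [ha, hh]; field_simp; ring
  have d2 : 2 / s - 2 / t = h * (-2 * b) := by
    rw [hb, hh]; field_simp; ring
  have d3 : 4 / (s - 1) - 4 / (t - 1) = h * (-2 * c) := by
    rw [hc, hh]; field_simp; ring
  have g0 : |g s 0 - g t 0| = h * (c - 1 - a - b) := by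
    have : g s 0 - g t 0 = -(h * (c - 1 - a - b)) := by
      simp only [g, Matrix.cons_val_zero]
      linear_combination hL - d1
    rw [this, abs_neg, abs_of_nonneg]
    exact mul_nonneg hh0 (by linarith)
  have g1 : |g s 1 - g t 1| = h * (a + b + c - 1) := by
    have : g s 1 - g t 1 = -(h * (a + b + c - 1)) := by
      simp only [g, Matrix.cons_val_one, Matrix.cons_val_zero]
      linear_combination hL + d2
    rw [this, abs_neg, abs_of_nonneg]
    exact mul_nonneg hh0 (by linarith)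
  have g2 : |g s 2 - g t 2| = h * (1 + a + c - b) := by
    have : g s 2 - g t 2 = -(h * (1 + a + c - b)) := by
      simp only [g, Matrix.cons_val]
      linear_combination hL + 2 * hh
    rw [this, abs_neg, abs_of_nonneg]
    exact mul_nonneg hh0 (by linarith)
  have f0 : |f k s 0 - f k t 0| = h * (1 - a + b + c) := by
    have : f k s 0 - f k t 0 = h * (1 - a + b + c) := by
      simp only [f, Matrix.cons_val_zero]
      linear_combination hL - d3
    rw [this, abs_of_nonneg]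
    exact mul_nonneg hh0 (by linarith)
  have f1 : |f k s 1 - f k t 1| = k * (h * (a + c - 1 - b)) := by
    have : f k s 1 - f k t 1 = -(k * (h * (a + c - 1 - b))) := by
      simp only [f, Matrix.cons_val_one, Matrix.cons_val_zero]
      linear_combination k * hL
    rw [this, abs_neg, abs_of_nonneg]
    exact mul_nonneg hk0.le (mul_nonneg hh0 (by linarith))
  have f2 : |f k s 2 - f k t 2| = 0 := by
    simp [f]
  unfold S
  rw [g0, g1, g2, f0, f1, f2]
  have hk' : (k * (h * (a + c - 1 - b))) ^ 3 = 2 * (h * (a + c - 1 - b)) ^ 3 := by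
    rw [mul_pow, hk]
  rw [hk']
  linear_combination (24 * h ^ 3) * e3

theorem S_eq (k : ℝ) (hk : k ^ 3 = 2) (hk0 : 0 < k) (s t : ℝ) (hs : s ∈ Set.Icc (3 / 2 : ℝ) 2)
    (ht : t ∈ Set.Icc (3 / 2 : ℝ) 2) : S (g s) (g t) = S (f k s) (f k t) := by
  rcases le_total t s with h | h
  · exact S_eq_of_le k hk hk0 s t ht.1 h hs.2
  · rw [S_comm, S_comm (f k s)]
    exact S_eq_of_le k hk hk0 t s hs.1 h ht.2

/-- the third coordinate `L - 2t` of the space curve is strictly decreasing, so `g` is injective -/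
theorem g_inj : Set.InjOn g (Set.Icc (3 / 2 : ℝ) 2) := by
  intro s hs t ht h
  have h0 := congrFun h 0
  have h1 := congrFun h 1
  have h2 := congrFun h 2
  simp only [g, Matrix.cons_val_zero, Matrix.cons_val_one, Matrix.cons_val] at h0 h1 h2
  obtain ⟨hs1, hs2⟩ := hs
  obtain ⟨ht1, ht2⟩ := ht
  have hs0 : 0 < s := by linarith
  have ht0 : 0 < t := by linarith
  have e : 2 / s - 2 / t + 2 * (s - t) = 0 := by linear_combination h1 - h2
  have e' : (s - t) * (s * t - 1) = 0 := by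
    have : 2 / s - 2 / t + 2 * (s - t) = 2 * ((s - t) * (s * t - 1)) / (s * t) := by
      field_simp
      ring
    rw [this] at e
    rcases div_eq_zero_iff.1 e with h | h
    · linarith
    · nlinarith
  rcases mul_eq_zero.1 e' with h | h
  · linarith
  · nlinarith

theorem S_self (x : Fin 3 → ℝ) : S x x = 0 := by
  unfold S; simp

theorem eq_of_S (x y : Fin 3 → ℝ) (h : S x y = 0) : x = y := by
  unfold S at h
  have h0 := pow_nonneg (abs_nonneg (x 0 - y 0)) 3
  have h1 := pow_nonneg (abs_nonneg (x 1 - y 1)) 3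
  have h2 := pow_nonneg (abs_nonneg (x 2 - y 2)) 3
  have e0 : |x 0 - y 0| ^ 3 = 0 := by linarith
  have e1 : |x 1 - y 1| ^ 3 = 0 := by linarith
  have e2 : |x 2 - y 2| ^ 3 = 0 := by linarith
  have f0 := sub_eq_zero.1 (abs_eq_zero.1 (pow_eq_zero_iff (by norm_num) |>.1 e0))
  have f1 := sub_eq_zero.1 (abs_eq_zero.1 (pow_eq_zero_iff (by norm_num) |>.1 e1))
  have f2 := sub_eq_zero.1 (abs_eq_zero.1 (pow_eq_zero_iff (by norm_num) |>.1 e2))
  funext i
  fin_cases i
  · exact f0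
  · exact f1
  · exact f2

theorem f_inj (k : ℝ) (hk : k ^ 3 = 2) (hk0 : 0 < k) :
    Set.InjOn (f k) (Set.Icc (3 / 2 : ℝ) 2) := by
  intro s hs t ht h
  apply g_inj hs ht
  apply eq_of_S
  rw [S_eq k hk hk0 s t hs ht, h, S_self]

theorem continuousOn_L : ContinuousOn L (Set.Icc (3 / 2 : ℝ) 2) := by
  unfold L
  refine ContinuousOn.add (ContinuousOn.add (ContinuousOn.sub ?_ ?_) ?_) continuousOn_id
  · exact continuousOn_const.div (by fun_prop) fun t ht => by
      have := ht.1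
      intro h; linarith
  · exact continuousOn_const.div (by fun_prop) fun t ht => by
      have := ht.1
      intro h; linarith
  · exact continuousOn_const.div (by fun_prop) fun t ht => by
      have := ht.1
      intro h; linarith

theorem continuousOn_f (k : ℝ) : ContinuousOn (f k) (Set.Icc (3 / 2 : ℝ) 2) := by
  rw [continuousOn_pi]
  intro i
  fin_cases i
  · have : ContinuousOn (fun t : ℝ => L t - 4 / (t - 1)) (Set.Icc (3 / 2 : ℝ) 2) := by
      refine continuousOn_L.sub ?_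
      exact continuousOn_const.div (by fun_prop) fun t ht => by
        have := ht.1
        intro h; linarith
    simpa [f] using this
  · have : ContinuousOn (fun t : ℝ => k * L t) (Set.Icc (3 / 2 : ℝ) 2) :=
      continuousOn_const.mul continuousOn_L
    simpa [f] using this
  · simpa [f] using (continuousOn_const : ContinuousOn (fun _ : ℝ => (0 : ℝ)) _)

/-- a plane meets the space curve in at most four points -/
theorem plane_inter (P : AffineSubspace ℝ (Fin 3 → ℝ)) (hP : finrank ℝ P.direction = 2) :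
    (g '' Set.Icc (3 / 2 : ℝ) 2 ∩ P).Finite ∧ (g '' Set.Icc (3 / 2 : ℝ) 2 ∩ P).ncard ≤ 4 := by
  rcases (g '' Set.Icc (3 / 2 : ℝ) 2 ∩ (P : Set (Fin 3 → ℝ))).eq_empty_or_nonempty with he | he
  · rw [he]; simp
  obtain ⟨x0, hx0⟩ := he
  have hne : P.direction < ⊤ := by
    rw [lt_top_iff_ne_top]
    intro h
    rw [h, finrank_top] at hP
    simp at hP
  obtain ⟨φ, hφ0, hφ⟩ := Submodule.exists_le_ker_of_lt_top P.direction hne
  obtain ⟨α, hα⟩ : ∃ α, α = φ (Pi.single 0 1) := ⟨_, rfl⟩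
  obtain ⟨β, hβ⟩ : ∃ β, β = φ (Pi.single 1 1) := ⟨_, rfl⟩
  obtain ⟨κ, hκ⟩ : ∃ κ, κ = φ (Pi.single 2 1) := ⟨_, rfl⟩
  have hform : ∀ x : Fin 3 → ℝ, φ x = α * x 0 + β * x 1 + κ * x 2 := by
    intro x
    have hx : x = x 0 • (Pi.single 0 1 : Fin 3 → ℝ) + x 1 • (Pi.single 1 1 : Fin 3 → ℝ)
        + x 2 • (Pi.single 2 1 : Fin 3 → ℝ) := by
      funext i
      fin_cases i <;> simp
    conv_lhs => rw [hx]
    rw [map_add, map_add, map_smul, map_smul, map_smul, ← hα, ← hβ, ← hκ]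
    simp only [smul_eq_mul]
    ring
  obtain ⟨d, hd⟩ : ∃ d, d = φ x0 := ⟨_, rfl⟩
  have hPd : ∀ x ∈ P, φ x = d := by
    intro x hx
    have h1 := hφ (AffineSubspace.vsub_mem_direction hx hx0.2)
    rw [LinearMap.mem_ker, vsub_eq_sub, map_sub] at h1
    rw [hd]; linarith
  -- the polynomial
  obtain ⟨σ, hσ⟩ : ∃ σ, σ = α + β + κ := ⟨_, rfl⟩
  let Q : Polynomial ℝ := Polynomial.C (σ - 2 * κ) * Polynomial.X ^ 4
    + Polynomial.C (-d) * Polynomial.X ^ 3
    + Polynomial.C (2 * σ - 4 * α + (2 * β - σ) + 2 * σ - (σ - 2 * κ)) * Polynomial.X ^ 2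
    + Polynomial.C (-(2 * σ - 4 * α) + 2 * σ + d) * Polynomial.X
    + Polynomial.C (-(2 * β - σ))
  have hQeval : ∀ t, Q.eval t = (σ - 2 * κ) * t ^ 4 + (-d) * t ^ 3
      + (2 * σ - 4 * α + (2 * β - σ) + 2 * σ - (σ - 2 * κ)) * t ^ 2
      + (-(2 * σ - 4 * α) + 2 * σ + d) * t + (-(2 * β - σ)) := by
    intro t
    simp only [Q, Polynomial.eval_add, Polynomial.eval_mul, Polynomial.eval_C,
      Polynomial.eval_pow, Polynomial.eval_X]
  have hQdeg : Q.natDegree ≤ 4 := by
    simp only [Q]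
    compute_degree
  have hQ0 : Q ≠ 0 := by
    intro h
    have q0 := hQeval 0
    have q1 := hQeval 1
    have q2 := hQeval (-1)
    rw [h, Polynomial.eval_zero] at q0 q1 q2
    have hσ0 : σ = 0 := by linarith
    have hα0 : α = 0 := by linarith
    have hβ0 : β = 0 := by linarith
    have hκ0 : κ = 0 := by linarith
    apply hφ0
    ext x
    simp [hform, hα0, hβ0, hκ0]
  have hsub : g '' Set.Icc (3 / 2 : ℝ) 2 ∩ P ⊆ g '' (Q.roots.toFinset : Set ℝ) := by
    rintro _ ⟨⟨t, ht, rfl⟩, hP'⟩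
    refine ⟨t, ?_, rfl⟩
    have ht1 : 0 < t - 1 := by have := ht.1; linarith
    have ht0 : 0 < t := by linarith
    have ht2 : 0 < t + 1 := by linarith
    have h1 := hPd _ hP'
    rw [hform] at h1
    simp only [g, L, Matrix.cons_val_zero, Matrix.cons_val_one, Matrix.cons_val] at h1
    rw [Finset.mem_coe, Multiset.mem_toFinset, Polynomial.mem_roots hQ0, Polynomial.IsRoot.def,
      hQeval, hσ]
    field_simp at h1
    linear_combination h1
  have hfin : (g '' (Q.roots.toFinset : Set ℝ)).Finite := (Finset.finite_toSet _).image _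
  refine ⟨hfin.subset hsub, ?_⟩
  calc (g '' Set.Icc (3 / 2 : ℝ) 2 ∩ P).ncard ≤ (g '' (Q.roots.toFinset : Set ℝ)).ncard :=
        Set.ncard_le_ncard hsub hfin
    _ ≤ (Q.roots.toFinset : Set ℝ).ncard := Set.ncard_image_le (Finset.finite_toSet _)
    _ = Q.roots.toFinset.card := Set.ncard_coe_finset _
    _ ≤ Multiset.card Q.roots := Multiset.toFinset_card_le _
    _ ≤ Q.natDegree := Polynomial.card_roots' Q
    _ ≤ 4 := hQdeg

/-- **Negative answer to Q2 of MP_04b39a_gt** (with `p = 3`): there are an infinite compact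
connected set `M` (an arc) contained in a horizontal plane of `ℝ³` and an `ℓ₃`-isometric copy `M'`
of `M` such that every plane of `ℝ³` meets `M'` in a finite set, in fact in at most four points. -/
theorem result : ∃ M M' : Set (Fin 3 → ℝ),
    M.Infinite ∧ IsCompact M ∧ IsConnected M ∧ InHorizontalPlane M ∧ IsLpCopy 3 M M' ∧
    ∀ P : AffineSubspace ℝ (Fin 3 → ℝ), finrank ℝ P.direction = 2 →
      (M' ∩ P).Finite ∧ (M' ∩ P).ncard ≤ 4 := by
  obtain ⟨k, hk0, hk⟩ : ∃ k : ℝ, 0 < k ∧ k ^ 3 = 2 := by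
    refine ⟨(2 : ℝ) ^ (1 / 3 : ℝ), by positivity, ?_⟩
    rw [← Real.rpow_natCast, ← Real.rpow_mul (by norm_num)]
    norm_num
  have hf := f_inj k hk hk0
  refine ⟨f k '' Set.Icc (3 / 2 : ℝ) 2, g '' Set.Icc (3 / 2 : ℝ) 2, ?_, ?_, ?_, ?_, ?_,
    plane_inter⟩
  · exact Set.Infinite.image hf (Set.Icc_infinite (by norm_num))
  · exact isCompact_Icc.image_of_continuousOn (continuousOn_f k)
  · exact (isConnected_Icc (by norm_num)).image _ (continuousOn_f k)
  · refine ⟨0, ?_⟩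
    rintro _ ⟨t, ht, rfl⟩
    simp [f]
  · have hinv : ∀ t ∈ Set.Icc (3 / 2 : ℝ) 2,
        Function.invFunOn (f k) (Set.Icc (3 / 2 : ℝ) 2) (f k t) = t := by
      intro t ht
      exact hf.leftInvOn_invFunOn ht
    refine ⟨g ∘ Function.invFunOn (f k) (Set.Icc (3 / 2 : ℝ) 2), ⟨?_, ?_, ?_⟩, ?_⟩
    · rintro _ ⟨t, ht, rfl⟩
      exact ⟨t, ht, by simp only [Function.comp_apply, hinv t ht]⟩
    · rintro _ ⟨s, hs, rfl⟩ _ ⟨t, ht, rfl⟩ h
      simp only [Function.comp_apply, hinv s hs, hinv t ht] at h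
      rw [g_inj hs ht h]
    · rintro _ ⟨t, ht, rfl⟩
      exact ⟨f k t, ⟨t, ht, rfl⟩, by simp only [Function.comp_apply, hinv t ht]⟩
    · rintro _ ⟨s, hs, rfl⟩ _ ⟨t, ht, rfl⟩
      simp only [Function.comp_apply, hinv s hs, hinv t ht, lpDist_three,
        S_eq k hk hk0 s t hs ht]

end Pool.Agent.Results.MP_04b39a_gt.CurveFiniteInPlanes
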